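import Mathlib
import Pool.Agent.Lib.MP_695920_nt.Analytic

/-! Integers with few large prime factors. -/

open Finset ArithmeticFunction

namespace MP60829e.Rate

/-- number of prime factors at least `s` -/
def om (s m : ℕ) : ℕ := (m.primeFactors.filter (fun p => s ≤ p)).card

theorem om_le_of_dvd {s m d : ℕ} (hm : m ≠ 0) (h : d ∣ m) : om s d ≤ om s m :=
  card_le_card (filter_subset_filter _ (Nat.primeFactors_mono h hm))

theorem psi_le (N : ℕ) : ∑ n ∈ Ioc 0 N, vonMangoldt n ≤ 6 * N := by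
  have h1 := Chebyshev.psi_le_const_mul_self (x := (N : ℝ)) (Nat.cast_nonneg _)
  unfold Chebyshev.psi at h1
  rw [Nat.floor_natCast] at h1
  refine h1.trans ?_
  apply mul_le_mul_of_nonneg_right _ (Nat.cast_nonneg _)
  have : Real.log 4 ≤ 2 := by
    have h2 : Real.log 4 = 2 * Real.log 2 := by
      rw [show (4 : ℝ) = 2 ^ 2 by norm_num, Real.log_pow]; norm_num
    have h3 := Real.log_two_lt_d9
    linarith
  linarith

/-- A set closed under divisors is thin if its sum of reciprocals is small. -/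
theorem div_closed (S : Finset ℕ) (B : ℕ) (hB : 1 ≤ B) (hS : ∀ m ∈ S, 1 ≤ m ∧ m ≤ B)
    (hd : ∀ m ∈ S, ∀ d, d ∣ m → d ∈ S) :
    (S.card : ℝ) * Real.log B ≤ 7 * B * ∑ m ∈ S, 1 / (m : ℝ) := by
  classical
  have hB0 : (0 : ℝ) < B := by exact_mod_cast hB
  -- log B = log (B / m) + log m
  have h1 : ∀ m ∈ S, Real.log B ≤ B / m + ∑ d ∈ m.divisors, vonMangoldt d := by
    intro m hm
    have hm0 : (0 : ℝ) < m := by exact_mod_cast (hS m hm).1
    rw [vonMangoldt_sum]
    have h2 : Real.log B = Real.log (B / m) + Real.log m := by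
      rw [Real.log_div hB0.ne' hm0.ne']; ring
    have h3 : Real.log (B / m) ≤ B / m := by
      have := Real.log_le_sub_one_of_pos (div_pos hB0 hm0)
      linarith
    linarith
  have h2 : ∑ m ∈ S, ∑ d ∈ m.divisors, vonMangoldt d ≤
      ∑ e ∈ S, ∑ n ∈ Ioc 0 (B / e), vonMangoldt n := by
    rw [Finset.sum_sigma', Finset.sum_sigma']
    -- (m, d) ↦ (m / d, d)
    have hinj : Set.InjOn (fun x : (_ : ℕ) × ℕ => (⟨x.1 / x.2, x.2⟩ : (_ : ℕ) × ℕ))
        (S.sigma fun m => m.divisors : Finset ((_ : ℕ) × ℕ)) := by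
      rintro ⟨m, d⟩ hx ⟨m', d'⟩ hx' hxy
      simp only [coe_sigma, Set.mem_sigma_iff, mem_coe, Nat.mem_divisors] at hx hx'
      simp only [Sigma.mk.injEq, heq_eq_eq] at hxy
      obtain ⟨h3, h4⟩ := hxy
      subst h4
      have h5 : m = m' := by
        rw [← Nat.div_mul_cancel hx.2.1, ← Nat.div_mul_cancel hx'.2.1, h3]
      subst h5
      rfl
    calc ∑ x ∈ S.sigma fun m => m.divisors, vonMangoldt x.2
        = ∑ y ∈ (S.sigma fun m => m.divisors).image
            (fun x : (_ : ℕ) × ℕ => (⟨x.1 / x.2, x.2⟩ : (_ : ℕ) × ℕ)), vonMangoldt y.2 := by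
          rw [Finset.sum_image hinj]
      _ ≤ ∑ y ∈ S.sigma fun e => Ioc 0 (B / e), vonMangoldt y.2 := by
          refine Finset.sum_le_sum_of_subset_of_nonneg ?_ (fun y _ _ => vonMangoldt_nonneg)
          intro y hy
          rw [mem_image] at hy
          obtain ⟨⟨m, d⟩, hx, rfl⟩ := hy
          rw [mem_sigma, Nat.mem_divisors] at hx
          obtain ⟨hmS, hdm, hm0⟩ := hx
          simp only at hmS hdm hm0
          have hd0 : 0 < d := Nat.pos_of_dvd_of_pos hdm (Nat.pos_of_ne_zero hm0)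
          rw [mem_sigma, mem_Ioc]
          refine ⟨hd m hmS _ (Nat.div_dvd_of_dvd hdm), hd0, ?_⟩
          simp only
          have hmd : 0 < m / d := Nat.div_pos (Nat.le_of_dvd (Nat.pos_of_ne_zero hm0) hdm) hd0
          rw [Nat.le_div_iff_mul_le hmd, mul_comm, Nat.div_mul_cancel hdm]
          exact (hS m hmS).2
  have h3 : ∀ e ∈ S, ∑ n ∈ Ioc 0 (B / e), vonMangoldt n ≤ 6 * (B / e) := by
    intro e he
    refine (psi_le _).trans ?_
    have : ((B / e : ℕ) : ℝ) ≤ (B : ℝ) / e := Nat.cast_div_le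
    linarith
  calc (S.card : ℝ) * Real.log B = ∑ m ∈ S, Real.log B := by rw [sum_const, nsmul_eq_mul]
    _ ≤ ∑ m ∈ S, ((B : ℝ) / m + ∑ d ∈ m.divisors, vonMangoldt d) := sum_le_sum h1
    _ = ∑ m ∈ S, (B : ℝ) / m + ∑ m ∈ S, ∑ d ∈ m.divisors, vonMangoldt d := sum_add_distrib
    _ ≤ ∑ m ∈ S, (B : ℝ) / m + ∑ m ∈ S, 6 * ((B : ℝ) / m) :=
        add_le_add le_rfl (h2.trans (sum_le_sum h3))
    _ = 7 * B * ∑ m ∈ S, 1 / (m : ℝ) := by
        rw [← sum_add_distrib, mul_sum]
        refine sum_congr rfl fun m _ => ?_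
        ring

/-- the integers with fewer than `r` prime factors at least `s` -/
def Sm (s r B : ℕ) : Finset ℕ := (Icc 1 B).filter (fun m => om s m < r)

theorem sum_inv_sub_one (N : ℕ) (hN : 2 ≤ N) :
    ∑ p ∈ (Icc 0 N).filter Nat.Prime, 1 / ((p : ℝ) - 1) ≤ Real.log (Real.log N) + 5 := by
  classical
  have h1 := Pool.Agent.Lib.MP_695920_nt.sum_inv_primes_le N hN
  have h2 : ∀ N : ℕ, 1 ≤ N →
      ∑ p ∈ (Icc 0 N).filter Nat.Prime, (1 / ((p : ℝ) - 1) - 1 / p) ≤ 1 - 1 / (N : ℝ) := by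
    intro N hN
    induction N, hN using Nat.le_induction with
    | base =>
      have h6 : (Icc 0 1).filter Nat.Prime = ∅ := by decide
      rw [h6]
      norm_num
    | succ N hN1 ih =>
      have h3 : Icc 0 (N + 1) = insert (N + 1) (Icc 0 N) := by
        ext x; simp only [mem_Icc, mem_insert]; omega
      rw [h3, Finset.filter_insert]
      have hN1' : (1 : ℝ) ≤ N := by exact_mod_cast hN1
      split_ifs with hp
      · rw [Finset.sum_insert (by simp)]
        have h4 : (1 / (((N + 1 : ℕ) : ℝ) - 1) - 1 / ((N + 1 : ℕ) : ℝ)) = 1 / N - 1 / ((N + 1 : ℕ) : ℝ) := by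
          push_cast; ring
        rw [h4]
        linarith
      · have h5 : 1 / ((N + 1 : ℕ) : ℝ) ≤ 1 / (N : ℝ) := by
          apply one_div_le_one_div_of_le (by linarith)
          push_cast; linarith
        linarith
  have h3 := h2 N (by omega)
  rw [Finset.sum_sub_distrib] at h3
  have h4 : (0 : ℝ) ≤ 1 / (N : ℝ) := by positivity
  linarith

/-- the base case: smooth numbers -/
theorem sum_smooth (s B : ℕ) (hs : 2 ≤ s) :
    ∑ m ∈ Sm s 1 B, 1 / (m : ℝ) ≤ Real.exp 5 * Real.log s := by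
  classical
  have hs2 : (2 : ℝ) ≤ s := by exact_mod_cast hs
  have hlog : 0 < Real.log s := Real.log_pos (by linarith)
  let f : ℕ →* ℝ :=
    { toFun := fun n => 1 / (n : ℝ)
      map_one' := by simp
      map_mul' := fun a b => by push_cast; rw [one_div_mul_one_div] }
  have hf : ∀ n : ℕ, f n = 1 / (n : ℝ) := fun n => rfl
  obtain ⟨hsum, hprod⟩ := EulerProduct.summable_and_hasSum_smoothNumbers_prod_primesBelow_geometric
    (f := f) (fun {p} hp => by
      rw [hf, Real.norm_of_nonneg (by positivity)]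
      have : (2 : ℝ) ≤ p := by exact_mod_cast hp.two_le
      rw [div_lt_one (by linarith)]
      linarith) s
  have hmem : ∀ m ∈ Sm s 1 B, m ∈ Nat.smoothNumbers s := by
    intro m hm
    rw [Sm, mem_filter, mem_Icc] at hm
    rw [Nat.mem_smoothNumbers']
    intro p hp hpm
    by_contra hle
    push Not at hle
    have h1 : p ∈ m.primeFactors.filter (fun p => s ≤ p) := by
      rw [mem_filter, Nat.mem_primeFactors]
      exact ⟨⟨hp, hpm, by omega⟩, hle⟩
    have h2 : 0 < om s m := Finset.card_pos.mpr ⟨p, h1⟩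
    omega
  have h1 : ∑ m ∈ Sm s 1 B, 1 / (m : ℝ) ≤ ∏ p ∈ s.primesBelow, (1 - f p)⁻¹ := by
    rw [← Finset.sum_attach]
    let g : {m // m ∈ Sm s 1 B} → Nat.smoothNumbers s := fun m => ⟨m.1, hmem m.1 m.2⟩
    have hg : Function.Injective g := by
      intro a b hab
      apply Subtype.ext
      exact congrArg (fun x : Nat.smoothNumbers s => (x : ℕ)) hab
    calc ∑ m ∈ (Sm s 1 B).attach, 1 / ((m : ℕ) : ℝ)
        = ∑ x ∈ (Sm s 1 B).attach.map ⟨g, hg⟩, f (x : ℕ) := by
          rw [Finset.sum_map]; rfl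
      _ ≤ ∏ p ∈ s.primesBelow, (1 - f p)⁻¹ := by
          refine sum_le_hasSum _ (fun x _ => ?_) hprod
          rw [hf]; positivity
  refine h1.trans ?_
  have h2 : ∀ p ∈ s.primesBelow, (1 - f p)⁻¹ ≤ Real.exp (1 / ((p : ℝ) - 1)) := by
    intro p hp
    have hp' := Nat.prime_of_mem_primesBelow hp
    have h3 : (2 : ℝ) ≤ p := by exact_mod_cast hp'.two_le
    rw [hf]
    have h4 : (1 - 1 / (p : ℝ))⁻¹ = 1 / ((p : ℝ) - 1) + 1 := by
      have : (p : ℝ) - 1 ≠ 0 := by linarith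
      have : (p : ℝ) ≠ 0 := by linarith
      field_simp
      ring
    rw [h4]
    exact Real.add_one_le_exp _
  calc ∏ p ∈ s.primesBelow, (1 - f p)⁻¹ ≤ ∏ p ∈ s.primesBelow, Real.exp (1 / ((p : ℝ) - 1)) := by
        refine Finset.prod_le_prod (fun p hp => ?_) h2
        have hp' := Nat.prime_of_mem_primesBelow hp
        have h3 : (2 : ℝ) ≤ p := by exact_mod_cast hp'.two_le
        rw [hf, inv_nonneg, sub_nonneg, div_le_one (by linarith)]
        linarith
    _ = Real.exp (∑ p ∈ s.primesBelow, 1 / ((p : ℝ) - 1)) := (Real.exp_sum _ _).symm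
    _ ≤ Real.exp (Real.log (Real.log s) + 5) := by
        apply Real.exp_le_exp.mpr
        refine le_trans ?_ (sum_inv_sub_one s hs)
        refine Finset.sum_le_sum_of_subset_of_nonneg ?_ ?_
        · intro p hp
          rw [mem_filter, mem_Icc]
          exact ⟨⟨Nat.zero_le _, (Nat.lt_of_mem_primesBelow hp).le⟩, Nat.prime_of_mem_primesBelow hp⟩
        · intro p hp _
          have h3 : (2 : ℝ) ≤ p := by exact_mod_cast (mem_filter.mp hp).2.two_le
          apply div_nonneg zero_le_one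
          linarith
    _ = Real.exp 5 * Real.log s := by
        rw [Real.exp_add, Real.exp_log hlog, mul_comm]

/-- one more prime factor -/
theorem sum_step (s r B : ℕ) (hr : 1 ≤ r) (hB : 2 ≤ B) :
    ∑ m ∈ Sm s (r + 1) B, 1 / (m : ℝ) ≤
      (Real.log (Real.log B) + 6) * ∑ m ∈ Sm s r B, 1 / (m : ℝ) := by
  classical
  set P := (Icc 0 B).filter Nat.Prime with hP
  -- choose a prime factor at least s
  have hch : ∀ m ∈ (Sm s (r + 1) B) \ (Sm s r B), ∃ x : ℕ × ℕ × ℕ,
      x.1 ∈ P ∧ x.2.1 ∈ Icc 1 B ∧ x.2.2 ∈ Sm s r B ∧ x.1 ^ x.2.1 * x.2.2 = m := by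
    intro m hm
    rw [mem_sdiff] at hm
    obtain ⟨h1, h2⟩ := hm
    rw [Sm, mem_filter, mem_Icc] at h1 h2
    have h3 : om s m = r := by
      have : ¬ om s m < r := fun h => h2 ⟨h1.1, h⟩
      omega
    have hm0 : m ≠ 0 := by omega
    obtain ⟨p, hp⟩ := Finset.card_pos.mp (show 0 < om s m by omega)
    rw [mem_filter, Nat.mem_primeFactors] at hp
    obtain ⟨⟨hpp, hpm, _⟩, hsp⟩ := hp
    refine ⟨(p, m.factorization p, m / p ^ m.factorization p), ?_, ?_, ?_, ?_⟩
    · rw [hP, mem_filter, mem_Icc]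
      exact ⟨⟨Nat.zero_le _, (Nat.le_of_dvd (by omega) hpm).trans h1.1.2⟩, hpp⟩
    · rw [mem_Icc]
      refine ⟨(hpp.dvd_iff_one_le_factorization hm0).mp hpm, ?_⟩
      exact ((Nat.factorization_lt p hm0).le).trans h1.1.2
    · simp only
      rw [Sm, mem_filter, mem_Icc]
      refine ⟨⟨Nat.ordCompl_pos p hm0, (Nat.ordCompl_le m p).trans h1.1.2⟩, ?_⟩
      rw [← h3]
      refine Finset.card_lt_card ?_
      rw [Finset.ssubset_iff_of_subset (filter_subset_filter _
        (Nat.primeFactors_mono (Nat.ordCompl_dvd m p) hm0))]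
      refine ⟨p, ?_, ?_⟩
      · rw [mem_filter, Nat.mem_primeFactors]
        exact ⟨⟨hpp, hpm, hm0⟩, hsp⟩
      · rw [mem_filter, Nat.mem_primeFactors]
        rintro ⟨⟨_, h4, _⟩, _⟩
        exact Nat.not_dvd_ordCompl hpp hm0 h4
    · exact Nat.ordProj_mul_ordCompl_eq_self m p
  choose! x hx1 hx2 hx3 hx4 using hch
  have hsub : Sm s r B ⊆ Sm s (r + 1) B := by
    intro m hm
    rw [Sm, mem_filter] at hm ⊢
    exact ⟨hm.1, by omega⟩
  have h1 : ∑ m ∈ (Sm s (r + 1) B) \ (Sm s r B), 1 / (m : ℝ) ≤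
      ∑ y ∈ P ×ˢ (Icc 1 B ×ˢ Sm s r B), 1 / ((y.1 : ℝ) ^ y.2.1 * y.2.2) := by
    have hinj : Set.InjOn x ((Sm s (r + 1) B) \ (Sm s r B) : Finset ℕ) := by
      intro a ha b hb hab
      rw [← hx4 a ha, ← hx4 b hb, hab]
    calc ∑ m ∈ (Sm s (r + 1) B) \ (Sm s r B), 1 / (m : ℝ)
        = ∑ m ∈ (Sm s (r + 1) B) \ (Sm s r B), 1 / (((x m).1 : ℝ) ^ (x m).2.1 * (x m).2.2) := by
          refine Finset.sum_congr rfl fun m hm => ?_
          congr 1
          have := hx4 m hm
          exact_mod_cast this.symm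
      _ = ∑ y ∈ ((Sm s (r + 1) B) \ (Sm s r B)).image x, 1 / ((y.1 : ℝ) ^ y.2.1 * y.2.2) := by
          rw [Finset.sum_image hinj]
      _ ≤ _ := by
          refine Finset.sum_le_sum_of_subset_of_nonneg ?_ (fun y _ _ => by positivity)
          intro y hy
          rw [mem_image] at hy
          obtain ⟨m, hm, rfl⟩ := hy
          rw [mem_product, mem_product]
          exact ⟨hx1 m hm, hx2 m hm, hx3 m hm⟩
  have h2 : ∑ y ∈ P ×ˢ (Icc 1 B ×ˢ Sm s r B), 1 / ((y.1 : ℝ) ^ y.2.1 * y.2.2) =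
      (∑ p ∈ P, ∑ k ∈ Icc 1 B, 1 / (p : ℝ) ^ k) * ∑ m ∈ Sm s r B, 1 / (m : ℝ) := by
    rw [Finset.sum_product, Finset.sum_mul]
    refine Finset.sum_congr rfl fun p _ => ?_
    rw [Finset.sum_product, Finset.sum_mul]
    refine Finset.sum_congr rfl fun k _ => ?_
    rw [Finset.mul_sum]
    refine Finset.sum_congr rfl fun m _ => ?_
    rw [one_div_mul_one_div]
  have h3 : ∀ p ∈ P, ∑ k ∈ Icc 1 B, 1 / (p : ℝ) ^ k ≤ 1 / ((p : ℝ) - 1) := by
    intro p hp
    have hp2 : (2 : ℝ) ≤ p := by exact_mod_cast (mem_filter.mp hp).2.two_le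
    have h4 : ∀ K : ℕ, ∑ k ∈ Icc 1 K, 1 / (p : ℝ) ^ k ≤ (1 - 1 / (p : ℝ) ^ K) * (1 / ((p : ℝ) - 1)) := by
      intro K
      induction K with
      | zero => simp
      | succ K ih =>
        rw [← Finset.insert_Icc_right_eq_Icc_add_one (by omega), Finset.sum_insert (by simp)]
        have hp1 : (0 : ℝ) < (p : ℝ) - 1 := by linarith
        have hpK : (0 : ℝ) < (p : ℝ) ^ K := by positivity
        have h5 : (1 - 1 / (p : ℝ) ^ (K + 1)) * (1 / ((p : ℝ) - 1)) =
            1 / (p : ℝ) ^ (K + 1) + (1 - 1 / (p : ℝ) ^ K) * (1 / ((p : ℝ) - 1)) := by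
          rw [pow_succ]
          field_simp
          ring
        rw [h5]
        linarith
    refine (h4 B).trans ?_
    have h6 : (0 : ℝ) ≤ 1 / ((p : ℝ) - 1) := by
      apply div_nonneg zero_le_one; linarith
    have h7 : (0 : ℝ) ≤ 1 / (p : ℝ) ^ B := by positivity
    nlinarith
  have h4 : ∑ p ∈ P, ∑ k ∈ Icc 1 B, 1 / (p : ℝ) ^ k ≤ Real.log (Real.log B) + 5 :=
    (Finset.sum_le_sum h3).trans (sum_inv_sub_one B hB)
  have h5 : (0 : ℝ) ≤ ∑ m ∈ Sm s r B, 1 / (m : ℝ) := Finset.sum_nonneg fun m _ => by positivity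
  rw [← Finset.sum_sdiff hsub]
  have h6 := mul_le_mul_of_nonneg_right h4 h5
  rw [h2] at h1
  linarith

theorem log_ge (B : ℕ) (hB : 16 ≤ B) : Real.exp 1 ≤ Real.log B := by
  have hB16 : (16 : ℝ) ≤ B := by exact_mod_cast hB
  have h1 : Real.log 16 ≤ Real.log B := Real.log_le_log (by norm_num) hB16
  have h2 : Real.log 16 = 4 * Real.log 2 := by
    rw [show (16 : ℝ) = 2 ^ 4 by norm_num, Real.log_pow]; norm_num
  have h3 := Real.log_two_gt_d9
  have h4 := Real.exp_one_lt_d9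
  linarith

theorem loglog_ge (B : ℕ) (hB : 16 ≤ B) : 1 ≤ Real.log (Real.log B) := by
  rw [← Real.log_exp 1]
  exact Real.log_le_log (Real.exp_pos _) (log_ge B hB)

/-- Integers with fewer than `r` prime factors at least `s`. -/
theorem few_primes (s r B : ℕ) (hs : 2 ≤ s) (hr : 1 ≤ r) (hB : 16 ≤ B) :
    ((Sm s r B).card : ℝ) * Real.log B ≤
      7 * Real.exp 5 * Real.log s * (7 * Real.log (Real.log B)) ^ (r - 1) * B := by
  classical
  have hl : 1 ≤ Real.log (Real.log B) := loglog_ge B hB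
  have hmain : ∀ r : ℕ, 1 ≤ r → ∑ m ∈ Sm s r B, 1 / (m : ℝ) ≤
      Real.exp 5 * Real.log s * (7 * Real.log (Real.log B)) ^ (r - 1) := by
    intro r hr
    induction r, hr using Nat.le_induction with
    | base => simpa using sum_smooth s B hs
    | succ r hr ih =>
      refine (sum_step s r B hr (by omega)).trans ?_
      have h1 : (0 : ℝ) ≤ ∑ m ∈ Sm s r B, 1 / (m : ℝ) := Finset.sum_nonneg fun m _ => by positivity
      calc (Real.log (Real.log B) + 6) * ∑ m ∈ Sm s r B, 1 / (m : ℝ)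
          ≤ (7 * Real.log (Real.log B)) * ∑ m ∈ Sm s r B, 1 / (m : ℝ) :=
            mul_le_mul_of_nonneg_right (by linarith) h1
        _ ≤ (7 * Real.log (Real.log B)) *
            (Real.exp 5 * Real.log s * (7 * Real.log (Real.log B)) ^ (r - 1)) :=
            mul_le_mul_of_nonneg_left ih (by linarith)
        _ = Real.exp 5 * Real.log s * (7 * Real.log (Real.log B)) ^ (r + 1 - 1) := by
            have : r + 1 - 1 = (r - 1) + 1 := by omega
            rw [this, pow_succ]; ring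
  have h1 := div_closed (Sm s r B) B (by omega) (fun m hm => by
      rw [Sm, mem_filter, mem_Icc] at hm
      exact hm.1) (by
      intro m hm d hd
      rw [Sm, mem_filter, mem_Icc] at hm ⊢
      have hm0 : m ≠ 0 := by omega
      refine ⟨⟨Nat.pos_of_dvd_of_pos hd (by omega), (Nat.le_of_dvd (by omega) hd).trans hm.1.2⟩, ?_⟩
      exact lt_of_le_of_lt (om_le_of_dvd hm0 hd) hm.2)
  refine h1.trans ?_
  have h2 := hmain r hr
  have h3 : (0 : ℝ) ≤ 7 * (B : ℝ) := by positivity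
  calc 7 * (B : ℝ) * ∑ m ∈ Sm s r B, 1 / (m : ℝ) ≤ 7 * B *
        (Real.exp 5 * Real.log s * (7 * Real.log (Real.log B)) ^ (r - 1)) :=
        mul_le_mul_of_nonneg_left h2 h3
    _ = _ := by ring

end MP60829e.Rate
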