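import Mathlib

/-! The box theorem of Erdos for `R`-partite `R`-uniform hypergraphs. -/

open Finset

namespace MP60829e.Rate

/-- `T` contains no box with all sides of size `t`. -/
def BoxFree (R t s : ℕ) (T : Finset (Fin R → Fin s)) : Prop :=
  ∀ w : Fin R → Fin t → Fin s, (∀ i, Function.Injective (w i)) →
    ∃ c : Fin R → Fin t, (fun i => w i (c i)) ∉ T

/-- the number of non-injective tuples -/
theorem card_not_injective (t s : ℕ) :
    (((univ : Finset (Fin t → Fin s)).filter (fun v => ¬ Function.Injective v)).card : ℝ) * s ≤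
      t ^ 2 * s ^ t := by
  classical
  have hinj : ((univ : Finset (Fin t → Fin s)).filter (fun v => Function.Injective v)).card =
      s.descFactorial t := by
    have h1 := Fintype.card_embedding_eq (α := Fin t) (β := Fin s)
    rw [Fintype.card_fin, Fintype.card_fin] at h1
    rw [← h1, ← Fintype.card_subtype]
    exact Fintype.card_congr (Equiv.subtypeInjectiveEquivEmbedding _ _)
  have hsum := Finset.card_filter_add_card_filter_not (s := (univ : Finset (Fin t → Fin s)))
    (fun v => Function.Injective v)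
  rw [hinj, card_univ, Fintype.card_fun, Fintype.card_fin, Fintype.card_fin] at hsum
  have hdesc : ∀ t : ℕ, (s : ℝ) * s ^ t ≤ s * s.descFactorial t + t ^ 2 * s ^ t := by
    intro t
    induction t with
    | zero => simp
    | succ t ih =>
      have h0 : (s : ℝ) - t ≤ ((s - t : ℕ) : ℝ) := by
        have : s ≤ (s - t) + t := by omega
        have h' : (s : ℝ) ≤ ((s - t : ℕ) : ℝ) + t := by exact_mod_cast this
        linarith
      have h1 : ((s.descFactorial (t + 1) : ℕ) : ℝ) = ((s - t : ℕ) : ℝ) * s.descFactorial t := by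
        rw [Nat.descFactorial_succ]; push_cast; ring
      have h2 : (s.descFactorial t : ℝ) ≤ s ^ t := by
        exact_mod_cast Nat.descFactorial_le_pow s t
      have h3 : (0 : ℝ) ≤ s.descFactorial t := Nat.cast_nonneg _
      have hs0 : (0 : ℝ) ≤ s := Nat.cast_nonneg _
      have ht0 : (0 : ℝ) ≤ t := Nat.cast_nonneg _
      have h4 : ((s : ℝ) - t) * s.descFactorial t ≤ ((s - t : ℕ) : ℝ) * s.descFactorial t :=
        mul_le_mul_of_nonneg_right h0 h3
      rw [h1, pow_succ]
      push_cast
      have h5 : (s : ℝ) * (s ^ t * s) ≤ s * (s * s.descFactorial t + t ^ 2 * s ^ t) := by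
        calc (s : ℝ) * (s ^ t * s) = s * (s * s ^ t) := by ring
          _ ≤ _ := mul_le_mul_of_nonneg_left ih hs0
      have h6 : (s : ℝ) * (((s : ℝ) - t) * s.descFactorial t) ≤
          s * (((s - t : ℕ) : ℝ) * s.descFactorial t) := mul_le_mul_of_nonneg_left h4 hs0
      have h7 : (s : ℝ) * t * s.descFactorial t ≤ s * t * s ^ t := by
        apply mul_le_mul_of_nonneg_left h2
        positivity
      have h8 : (0 : ℝ) ≤ s * s ^ t := by positivity
      nlinarith [h5, h6, h7, h8, mul_nonneg ht0 h8]
  have h1 := hdesc t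
  have h2 : ((s : ℝ) ^ t) = (s.descFactorial t : ℝ) +
      (((univ : Finset (Fin t → Fin s)).filter (fun v => ¬ Function.Injective v)).card : ℝ) := by
    exact_mod_cast hsum.symm
  rw [h2] at h1
  have h3 : (0 : ℝ) ≤ t ^ 2 * s ^ t := by positivity
  nlinarith [h1, h2]

/-- One step: from dimension `R` to dimension `R + 1`. -/
theorem box_step (R t s : ℕ) (ht : 2 ≤ t) (hs : 1 ≤ s) (β : ℝ)
    (h : ∀ T' : Finset (Fin R → Fin s), BoxFree R t s T' → (T'.card : ℝ) ≤ β * s ^ R)
    (T : Finset (Fin (R + 1) → Fin s)) (hT : BoxFree (R + 1) t s T) :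
    ((T.card : ℝ) / (s : ℝ) ^ (R + 1)) ^ t ≤ β + t ^ 2 / s := by
  classical
  have hs0 : (0 : ℝ) < s := by exact_mod_cast hs
  -- degree of a point
  set d : (Fin R → Fin s) → ℕ := fun x =>
    ((univ : Finset (Fin s)).filter (fun v => (Fin.cons v x : Fin (R + 1) → Fin s) ∈ T)).card with hd
  set S : (Fin t → Fin s) → Finset (Fin R → Fin s) := fun v =>
    (univ : Finset (Fin R → Fin s)).filter (fun x => ∀ i, (Fin.cons (v i) x : Fin (R + 1) → Fin s) ∈ T) with hS
  have hcard : T.card = ∑ x, d x := by
    have h1 : T.card = ((univ : Finset ((Fin R → Fin s) × Fin s)).filter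
        (fun p => (Fin.cons p.2 p.1 : Fin (R + 1) → Fin s) ∈ T)).card := by
      refine Finset.card_bij' (fun x _ => (Fin.tail x, x 0)) (fun p _ => Fin.cons p.2 p.1) ?_ ?_ ?_ ?_
      · intro x hx
        simpa using hx
      · intro p hp
        simpa using hp
      · intro x hx
        simp
      · intro p hp
        simp
    rw [h1, Finset.card_filter, Fintype.sum_prod_type]
    refine Finset.sum_congr rfl fun x _ => ?_
    simp only [hd, Finset.card_filter]
  have hcount : ∑ x, d x ^ t = ∑ v, (S v).card := by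
    have h1 : ∀ x, d x ^ t = ((univ : Finset (Fin t → Fin s)).filter
        (fun v => ∀ i, (Fin.cons (v i) x : Fin (R + 1) → Fin s) ∈ T)).card := by
      intro x
      have h2 : ((univ : Finset (Fin t → Fin s)).filter
          (fun v => ∀ i, (Fin.cons (v i) x : Fin (R + 1) → Fin s) ∈ T)) =
          Fintype.piFinset (fun _ : Fin t => (univ : Finset (Fin s)).filter
            (fun v => (Fin.cons v x : Fin (R + 1) → Fin s) ∈ T)) := by
        ext v
        simp [Fintype.mem_piFinset]
      rw [h2, Fintype.card_piFinset_const]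
    calc ∑ x, d x ^ t = ∑ x : Fin R → Fin s, ∑ v : Fin t → Fin s,
          (if ∀ i, (Fin.cons (v i) x : Fin (R + 1) → Fin s) ∈ T then 1 else 0) := by
          refine Finset.sum_congr rfl fun x _ => ?_
          rw [h1, Finset.card_filter]
      _ = ∑ v : Fin t → Fin s, ∑ x : Fin R → Fin s,
          (if ∀ i, (Fin.cons (v i) x : Fin (R + 1) → Fin s) ∈ T then 1 else 0) := Finset.sum_comm
      _ = ∑ v, (S v).card := by
          refine Finset.sum_congr rfl fun v _ => ?_
          rw [hS, Finset.card_filter]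
  -- slices along injective tuples are box free
  have hfree : ∀ v : Fin t → Fin s, Function.Injective v → ((S v).card : ℝ) ≤ β * s ^ R := by
    intro v hv
    refine h _ fun w hw => ?_
    obtain ⟨c, hc⟩ := hT (Fin.cons v w) (by
      intro i
      refine Fin.cases ?_ (fun j => ?_) i
      · simpa using hv
      · simpa using hw j)
    refine ⟨fun i => c i.succ, fun hmem => hc ?_⟩
    rw [hS, mem_filter] at hmem
    have h2 := hmem.2 (c 0)
    convert h2 using 1
    funext i
    refine Fin.cases ?_ (fun j => ?_) i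
    · simp
    · simp
  have hall : ∀ v : Fin t → Fin s, ((S v).card : ℝ) ≤ s ^ R := by
    intro v
    have h1 : (S v).card ≤ s ^ R := by
      refine (Finset.card_le_univ _).trans ?_
      simp
    exact_mod_cast h1
  have hβ : 0 ≤ β := by
    have h1 := h ∅ (by
      intro w hw
      exact ⟨fun _ => ⟨0, by omega⟩, by simp⟩)
    simp only [card_empty, Nat.cast_zero] at h1
    have h2 : (0 : ℝ) < (s : ℝ) ^ R := by positivity
    by_contra hneg
    push Not at hneg
    nlinarith
  have hbound : (∑ v, ((S v).card : ℝ)) ≤ (s : ℝ) ^ t * (β * s ^ R) +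
      (((univ : Finset (Fin t → Fin s)).filter (fun v => ¬ Function.Injective v)).card : ℝ) * s ^ R := by
    rw [← Finset.sum_filter_add_sum_filter_not (univ : Finset (Fin t → Fin s))
      (fun v => Function.Injective v)]
    refine add_le_add ?_ ?_
    · refine (Finset.sum_le_card_nsmul _ _ (β * s ^ R) ?_).trans ?_
      · intro v hv
        exact hfree v (mem_filter.mp hv).2
      · rw [nsmul_eq_mul]
        refine mul_le_mul_of_nonneg_right ?_ (by positivity)
        have h1 : ((univ : Finset (Fin t → Fin s)).filter (fun v => Function.Injective v)).card ≤ s ^ t := by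
          refine (Finset.card_le_univ _).trans ?_
          simp
        exact_mod_cast h1
    · refine (Finset.sum_le_card_nsmul _ _ ((s : ℝ) ^ R) ?_).trans ?_
      · intro v hv
        exact hall v
      · rw [nsmul_eq_mul]
  have hpow := pow_sum_div_card_le_sum_pow (s := (univ : Finset (Fin R → Fin s)))
    (f := fun x => (d x : ℝ)) (fun x _ => Nat.cast_nonneg _) (t - 1)
  have ht1 : t - 1 + 1 = t := by omega
  rw [ht1] at hpow
  have hcu : ((univ : Finset (Fin R → Fin s)).card : ℝ) = (s : ℝ) ^ R := by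
    simp
  rw [hcu] at hpow
  have h1 : (∑ x, (d x : ℝ)) = T.card := by rw [hcard]; push_cast; rfl
  have h2 : (∑ x, (d x : ℝ) ^ t) = ∑ v, ((S v).card : ℝ) := by exact_mod_cast hcount
  rw [h1, h2] at hpow
  have hsR : (0 : ℝ) < (s : ℝ) ^ R := by positivity
  rw [div_le_iff₀ (by positivity)] at hpow
  have hni := card_not_injective t s
  set N : ℝ := (((univ : Finset (Fin t → Fin s)).filter (fun v => ¬ Function.Injective v)).card : ℝ) with hN
  -- (T.card)^t ≤ (s^t β s^R + N s^R) (s^R)^(t-1)
  have h3 : (T.card : ℝ) ^ t ≤ ((s : ℝ) ^ t * (β * s ^ R) + N * s ^ R) * ((s : ℝ) ^ R) ^ (t - 1) :=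
    hpow.trans (mul_le_mul_of_nonneg_right hbound (by positivity))
  have h4 : ((s : ℝ) ^ t * (β * s ^ R) + N * s ^ R) * ((s : ℝ) ^ R) ^ (t - 1) =
      (s ^ t * β + N) * ((s : ℝ) ^ R) ^ t := by
    have : ((s : ℝ) ^ R) ^ t = ((s : ℝ) ^ R) * ((s : ℝ) ^ R) ^ (t - 1) := by
      rw [← pow_succ', ht1]
    rw [this]; ring
  rw [h4] at h3
  rw [div_pow, div_le_iff₀ (by positivity)]
  refine h3.trans ?_
  have h5 : ((s : ℝ) ^ (R + 1)) ^ t = s ^ t * ((s : ℝ) ^ R) ^ t := by
    rw [pow_succ, mul_pow]; ring
  rw [h5, ← mul_assoc]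
  refine mul_le_mul_of_nonneg_right ?_ (by positivity)
  have h6 : N ≤ t ^ 2 / s * s ^ t := by
    rw [div_mul_eq_mul_div, le_div_iff₀ hs0]
    exact hni
  nlinarith [h6]

/-- **Box theorem** (Erdos): a set without boxes of side `t` has small density. -/
theorem box (R t s : ℕ) (ht : 2 ≤ t) (hs : 1 ≤ s) (T : Finset (Fin R → Fin s))
    (hT : BoxFree R t s T) :
    ((T.card : ℝ) / (s : ℝ) ^ R) ^ (t ^ R) ≤ 2 ^ (t ^ R) * (t ^ 2 / s) := by
  classical
  have hs0 : (0 : ℝ) < s := by exact_mod_cast hs
  have ht0 : (0 : ℝ) < t := by exact_mod_cast (by omega : 0 < t)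
  set a : ℝ := t ^ 2 / s with ha
  have ha0 : 0 < a := by positivity
  induction R with
  | zero =>
    have hempty : T = ∅ := by
      rw [Finset.eq_empty_iff_forall_notMem]
      intro x hx
      obtain ⟨c, hc⟩ := hT (fun i => i.elim0) (fun i => i.elim0)
      have h0 : (fun i : Fin 0 => (i.elim0 : Fin t → Fin s) (c i)) = x := funext fun i => i.elim0
      exact hc (h0 ▸ hx)
    rw [hempty]
    simp only [card_empty, Nat.cast_zero, pow_zero, div_one, pow_one]
    positivity
  | succ R ih =>
    -- the least upper bound for dimension R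
    have htR : 0 < t ^ R := by positivity
    -- density bound in dimension R by a root
    set β : ℝ := 2 * a ^ ((1 : ℝ) / ((t ^ R : ℕ) : ℝ)) with hβ
    have hβ0 : 0 ≤ β := by positivity
    have hroot : (a ^ ((1 : ℝ) / ((t ^ R : ℕ) : ℝ))) ^ (t ^ R) = a := by
      rw [← Real.rpow_natCast, ← Real.rpow_mul ha0.le]
      rw [one_div, inv_mul_cancel₀ (by exact_mod_cast htR.ne'), Real.rpow_one]
    have hR : ∀ T' : Finset (Fin R → Fin s), BoxFree R t s T' → (T'.card : ℝ) ≤ β * s ^ R := by
      intro T' hT'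
      have h1 := ih T' hT'
      have h2 : ((T'.card : ℝ) / (s : ℝ) ^ R) ≤ β := by
        refine le_of_pow_le_pow_left₀ (n := t ^ R) htR.ne' hβ0 ?_
        rw [hβ, mul_pow, hroot]
        exact h1
      rwa [div_le_iff₀ (by positivity)] at h2
    have hstep := box_step R t s ht hs β hR T hT
    set ρ : ℝ := (T.card : ℝ) / (s : ℝ) ^ (R + 1) with hρ
    have hρ0 : 0 ≤ ρ := by positivity
    have hρ1 : ρ ≤ 1 := by
      rw [hρ, div_le_one (by positivity)]
      have h1 : T.card ≤ s ^ (R + 1) := by
        refine (Finset.card_le_univ _).trans ?_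
        simp
      exact_mod_cast h1
    rcases le_or_gt 1 a with ha1 | ha1
    · calc ρ ^ t ^ (R + 1) ≤ 1 := pow_le_one₀ hρ0 hρ1
        _ ≤ 2 ^ t ^ (R + 1) * a := by
          have : (1 : ℝ) ≤ 2 ^ t ^ (R + 1) := one_le_pow₀ (by norm_num)
          nlinarith
    · have h1 : a ≤ a ^ ((1 : ℝ) / ((t ^ R : ℕ) : ℝ)) := by
        have h2 := Real.rpow_le_rpow_of_exponent_ge ha0 ha1.le (x := a)
          (y := 1) (z := (1 : ℝ) / ((t ^ R : ℕ) : ℝ)) (by
            rw [div_le_one (by exact_mod_cast htR)]
            exact_mod_cast htR)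
        rwa [Real.rpow_one] at h2
      set g : ℝ := a ^ ((1 : ℝ) / ((t ^ R : ℕ) : ℝ)) with hg
      have hg0 : 0 < g := by positivity
      have h2 : ρ ^ t ≤ 4 * g := by
        refine hstep.trans ?_
        rw [hβ]
        linarith
      have h3 : ρ ^ t ^ (R + 1) ≤ (4 * g) ^ (t ^ R) := by
        have : ρ ^ t ^ (R + 1) = (ρ ^ t) ^ (t ^ R) := by
          rw [← pow_mul]; congr 1; ring
        rw [this]
        exact pow_le_pow_left₀ (by positivity) h2 _
      refine h3.trans ?_
      rw [mul_pow, hroot]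
      refine mul_le_mul_of_nonneg_right ?_ ha0.le
      have h4 : (4 : ℝ) ^ (t ^ R) = 2 ^ (2 * t ^ R) := by
        rw [pow_mul]; norm_num
      rw [h4]
      refine pow_le_pow_right₀ (by norm_num) ?_
      rw [pow_succ, mul_comm]
      exact Nat.mul_le_mul_left _ ht

end MP60829e.Rate
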