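import Mathlib
import Pool.Agent.Lib.MP_60829e_nt.Rate.Box
import Pool.Agent.Lib.MP_60829e_nt.Rate.Few

/-! Sets of integers without boxes of primes contain few integers with many large prime factors. -/

open Finset

namespace MP60829e.Rate

/-- `X` contains no box of prime factors with `r` sides of size `t`. -/
def GridFree (r t : ℕ) (X : Set ℕ) : Prop :=
  ∀ m : ℕ, 1 ≤ m → ∀ q : Fin r → Fin t → ℕ, (∀ i a, (q i a).Prime) →
    (∀ i, Function.Injective (q i)) → ∃ c : Fin r → Fin t, m * ∏ i, q i (c i) ∉ X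

theorem sum_inv_le (s B : ℕ) (hs : 1 ≤ s) :
    ∑ j ∈ Icc 1 B, 1 / ((s : ℝ) * j) ≤ (1 + Real.log B) / s := by
  have h := harmonic_le_one_add_log B
  rw [harmonic_eq_sum_Icc] at h
  push_cast at h
  have hs0 : (0 : ℝ) < s := by exact_mod_cast hs
  have h1 : ∑ j ∈ Icc 1 B, 1 / ((s : ℝ) * j) = (∑ j ∈ Icc 1 B, ((j : ℝ))⁻¹) / s := by
    rw [Finset.sum_div]
    refine Finset.sum_congr rfl fun j _ => ?_
    rw [one_div, mul_inv, div_eq_mul_inv, mul_comm]
  rw [h1]
  exact div_le_div_of_nonneg_right h hs0.le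

theorem typical (r t s B : ℕ) (hs : 1 ≤ s) (X : Set ℕ) (hX : GridFree r t X) (β : ℝ)
    (hβ0 : 0 ≤ β)
    (hβ : ∀ T : Finset (Fin r → Fin s), BoxFree r t s T → (T.card : ℝ) ≤ β * s ^ r) [DecidablePred (· ∈ X)] :
    (((Icc 1 B).filter (fun b => b ∈ X ∧ r ≤ om s b)).card : ℝ) ≤
      B * (1 + Real.log B) ^ r * β := by
  classical
  have hs0 : (0 : ℝ) < s := by exact_mod_cast hs
  set T : (Fin r → ℕ) × ℕ → Finset (Fin r → Fin s) := fun x =>
    (univ : Finset (Fin r → Fin s)).filter (fun o =>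
      (∀ i, (s * x.1 i + (o i : ℕ)).Prime) ∧ x.2 * ∏ i, (s * x.1 i + (o i : ℕ)) ∈ X) with hT
  set J : Finset (Fin r → ℕ) := Fintype.piFinset (fun _ : Fin r => Icc 1 B) with hJ
  set P : Finset ((Fin r → ℕ) × ℕ) :=
    (J ×ˢ Icc 1 B).filter (fun x => x.2 * ∏ i, (s * x.1 i) ≤ B) with hP
  have hfree : ∀ x ∈ P, BoxFree r t s (T x) := by
    intro x hx w hw
    by_contra hcon
    push Not at hcon
    have hx1 : 1 ≤ x.2 := by
      rw [hP, mem_filter, mem_product, mem_Icc] at hx
      exact hx.1.2.1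
    have hq : ∀ i a, (s * x.1 i + (w i a : ℕ)).Prime := by
      intro i a
      have h1 := hcon (fun _ => a)
      rw [hT, mem_filter] at h1
      exact h1.2.1 i
    obtain ⟨c, hc⟩ := hX x.2 hx1 (fun i a => s * x.1 i + (w i a : ℕ)) hq (by
      intro i a a' haa
      apply hw i
      apply Fin.ext
      simp only at haa
      omega)
    have h2 := hcon c
    rw [hT, mem_filter] at h2
    exact hc h2.2.2
  have hcover : ((Icc 1 B).filter (fun b => b ∈ X ∧ r ≤ om s b)) ⊆
      (P.sigma T).image (fun y => y.1.2 * ∏ i, (s * y.1.1 i + (y.2 i : ℕ))) := by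
    intro b hb
    rw [mem_filter, mem_Icc] at hb
    obtain ⟨⟨hb1, hbB⟩, hbX, hbr⟩ := hb
    obtain ⟨A, hA, hAr⟩ := Finset.exists_subset_card_eq hbr
    let e : Fin r ≃ A := (Fintype.equivFinOfCardEq (by simpa using hAr)).symm
    have hmem : ∀ i, ((e i : ℕ)).Prime ∧ (e i : ℕ) ∣ b ∧ s ≤ (e i : ℕ) := by
      intro i
      have h1 := hA (e i).2
      rw [mem_filter, Nat.mem_primeFactors] at h1
      exact ⟨h1.1.1, h1.1.2.1, h1.2⟩
    have hprod : ∏ i, (e i : ℕ) ∣ b := by
      have h1 : ∏ i, (e i : ℕ) = ∏ p ∈ A, p := by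
        rw [← Finset.prod_coe_sort A (fun p => p)]
        exact Equiv.prod_comp e (fun p : A => (p : ℕ))
      rw [h1]
      refine Finset.prod_primes_dvd b ?_ ?_
      · intro p hp
        have := hA hp
        rw [mem_filter, Nat.mem_primeFactors] at this
        exact this.1.1.prime
      · intro p hp
        have := hA hp
        rw [mem_filter, Nat.mem_primeFactors] at this
        exact this.1.2.1
    have hdm : ∀ i, s * ((e i : ℕ) / s) + ((e i : ℕ) % s) = e i := fun i => Nat.div_add_mod _ _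
    rw [mem_image]
    refine ⟨⟨(fun i => (e i : ℕ) / s, b / ∏ i, (e i : ℕ)),
      fun i => ⟨(e i : ℕ) % s, Nat.mod_lt _ hs⟩⟩, ?_, ?_⟩
    · rw [mem_sigma]
      have hval : (b / ∏ i, (e i : ℕ)) * ∏ i, (s * ((e i : ℕ) / s) + ((e i : ℕ) % s)) = b := by
        simp only [hdm]
        exact Nat.div_mul_cancel hprod
      constructor
      · rw [hP, mem_filter, mem_product, hJ, Fintype.mem_piFinset]
        refine ⟨⟨?_, ?_⟩, ?_⟩
        · intro i
          rw [mem_Icc]
          have h1 := hmem i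
          refine ⟨Nat.div_pos h1.2.2 hs, (Nat.div_le_self _ _).trans ?_⟩
          exact (Nat.le_of_dvd (by omega) h1.2.1).trans hbB
        · rw [mem_Icc]
          have hpos : 0 < ∏ i, (e i : ℕ) := Finset.prod_pos fun i _ => (hmem i).1.pos
          refine ⟨Nat.div_pos (Nat.le_of_dvd (by omega) hprod) hpos, ?_⟩
          exact (Nat.div_le_self _ _).trans hbB
        · simp only
          refine le_trans ?_ hbB
          refine le_trans (Nat.mul_le_mul_left _ ?_) hval.le
          exact Finset.prod_le_prod' fun i _ => Nat.le_add_right _ _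
      · rw [hT, mem_filter]
        refine ⟨mem_univ _, ?_, ?_⟩
        · intro i
          simp only [hdm]
          exact (hmem i).1
        · simp only
          rw [hval]
          exact hbX
    · simp only [hdm]
      exact Nat.div_mul_cancel hprod
  have hPcard : ((P.card : ℕ) : ℝ) ≤ B * ((1 + Real.log B) / s) ^ r := by
    have h1 : P.card = ∑ j ∈ J, ((Icc 1 B).filter (fun m => m * ∏ i, (s * j i) ≤ B)).card := by
      rw [hP, Finset.card_filter, Finset.sum_product]
      refine Finset.sum_congr rfl fun j _ => ?_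
      rw [Finset.card_filter]
    rw [h1]
    push_cast
    have h2 : ∀ j ∈ J, (((Icc 1 B).filter (fun m => m * ∏ i, (s * j i) ≤ B)).card : ℝ) ≤
        B * ∏ i, (1 / ((s : ℝ) * j i)) := by
      intro j hj
      rw [hJ, Fintype.mem_piFinset] at hj
      have hjpos : 0 < ∏ i, (s * j i) := Finset.prod_pos fun i _ => by
        have := (mem_Icc.mp (hj i)).1
        exact Nat.mul_pos hs this
      have h3 : ((Icc 1 B).filter (fun m => m * ∏ i, (s * j i) ≤ B)).card ≤ B / ∏ i, (s * j i) := by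
        calc ((Icc 1 B).filter (fun m => m * ∏ i, (s * j i) ≤ B)).card
            ≤ (Icc 1 (B / ∏ i, (s * j i))).card := by
              refine card_le_card ?_
              intro m hm
              rw [mem_filter, mem_Icc] at hm
              rw [mem_Icc]
              exact ⟨hm.1.1, (Nat.le_div_iff_mul_le hjpos).mpr hm.2⟩
          _ = B / ∏ i, (s * j i) := by rw [Nat.card_Icc, Nat.add_sub_cancel]
      have h4 : ((B / ∏ i, (s * j i) : ℕ) : ℝ) ≤ (B : ℝ) / ((∏ i, (s * j i) : ℕ) : ℝ) := Nat.cast_div_le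
      have h5 : (((Icc 1 B).filter (fun m => m * ∏ i, (s * j i) ≤ B)).card : ℝ) ≤
          ((B / ∏ i, (s * j i) : ℕ) : ℝ) := by exact_mod_cast h3
      refine (h5.trans h4).trans (le_of_eq ?_)
      rw [Finset.prod_div_distrib, Finset.prod_const_one]
      push_cast
      ring
    refine (Finset.sum_le_sum h2).trans ?_
    rw [← Finset.mul_sum]
    refine mul_le_mul_of_nonneg_left ?_ (Nat.cast_nonneg _)
    have h6 : ∑ j ∈ J, ∏ i, (1 / ((s : ℝ) * j i)) = ∏ _i : Fin r, ∑ j ∈ Icc 1 B, (1 / ((s : ℝ) * j)) := by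
      rw [hJ, Finset.prod_univ_sum]
    rw [h6, Finset.prod_const, card_univ, Fintype.card_fin]
    exact pow_le_pow_left₀ (Finset.sum_nonneg fun j _ => by positivity) (sum_inv_le s B hs) r
  have hβ1 : 0 ≤ β * s ^ r := by positivity
  calc (((Icc 1 B).filter (fun b => b ∈ X ∧ r ≤ om s b)).card : ℝ)
      ≤ (((P.sigma T).image (fun y => y.1.2 * ∏ i, (s * y.1.1 i + (y.2 i : ℕ)))).card : ℝ) := by
        exact_mod_cast card_le_card hcover
    _ ≤ ((P.sigma T).card : ℝ) := by exact_mod_cast card_image_le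
    _ = ∑ x ∈ P, ((T x).card : ℝ) := by rw [card_sigma]; push_cast; rfl
    _ ≤ ∑ x ∈ P, β * s ^ r := Finset.sum_le_sum fun x hx => hβ _ (hfree x hx)
    _ = P.card * (β * s ^ r) := by rw [sum_const, nsmul_eq_mul]
    _ ≤ (B * ((1 + Real.log B) / s) ^ r) * (β * s ^ r) := mul_le_mul_of_nonneg_right hPcard hβ1
    _ = B * (1 + Real.log B) ^ r * β := by
        rw [div_pow]
        field_simp

end MP60829e.Rate
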