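import Mathlib
import Pool.Agent.Lib.MP_60829e_nt.DensFinal
import Pool.Agent.Lib.MP_60829e_nt.GAlg
import Pool.Agent.Lib.MP_60829e_nt.Rate.Count

/-! The set of integers whose logarithm satisfies a relation contains no box of primes. -/

open Finset MvPolynomial MP60829e.Dens

namespace MP60829e.Rate

theorem Mn_eq (k n D : ℕ) : Mn k n D = (k + n + D).choose D := by
  have h1 := Pool.Agent.Lib.MP_60829e_nt.Gen.card_ex (Fin k ⊕ Fin n) D
  rw [Fintype.card_sum, Fintype.card_fin, Fintype.card_fin] at h1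
  rw [← h1, Mn, ← Nat.card_eq_finsetCard]
  refine Nat.card_congr (Equiv.subtypeEquivRight fun m => ?_)
  rw [mem_expos]
  rfl

/-- the set of integers whose logarithm satisfies a relation of degree at most `D` with `lam` -/
def Bad1 {k : ℕ} (D : ℕ) (lam : Fin k → ℂ) (u : ℂ) : Set ℕ :=
  {b : ℕ | ¬ NoRel D (Sum.elim lam fun _ : Fin 1 => u + ((Real.log b : ℝ) : ℂ))}

theorem log_diff_indep (M : ℕ) (q : Fin (M + 1) → Nat.Primes) (hq : Function.Injective q) :
    LinearIndependent QA (fun a : Fin M =>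
      ((Real.log (q a.succ : ℕ) : ℝ) : ℂ) - ((Real.log (q 0 : ℕ) : ℝ) : ℂ)) := by
  have hli := baker_log_primes.comp q hq
  rw [Fintype.linearIndependent_iff] at hli ⊢
  intro g hg a
  have h1 := hli (Fin.cons (-∑ a, g a) g) (by
    rw [Fin.sum_univ_succ]
    simp only [Fin.cons_zero, Fin.cons_succ, Function.comp_apply]
    rw [← hg]
    simp only [smul_sub, sum_sub_distrib, neg_smul, sum_smul]
    ring) a.succ
  simpa using h1

theorem gridFree_bad (k D M : ℕ) (hM : (k + 1 + D).choose D ≤ M) (lam : Fin k → ℂ)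
    (hlam : NoRel D lam) (u : ℂ) : GridFree (M * D) (M + 1) (Bad1 D lam u) := by
  classical
  intro m hm q hqp hqi
  by_contra hcon
  push Not at hcon
  rw [← Mn_eq] at hM
  rw [noRel_iff] at hlam
  have hacl : IsAlgClosed QA := isAlgClosed_QA
  have hMD : Mn k 1 D * D ≤ M * D := Nat.mul_le_mul_right _ hM
  have hM1 : Mn k 1 D + 1 ≤ M + 1 := by omega
  -- the remaining blocks are fixed
  let ext : (Fin (Mn k 1 D * D) → Fin (Mn k 1 D + 1)) → Fin (M * D) → Fin (M + 1) := fun c i =>
    if h : (i : ℕ) < Mn k 1 D * D then Fin.castLE hM1 (c ⟨i, h⟩) else 0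
  have hsplit : ∀ c : Fin (Mn k 1 D * D) → Fin (Mn k 1 D + 1), ∀ f : Fin (M * D) → Fin (M + 1) → ℂ,
      ∑ i, f i (ext c i) = ∑ i ∈ univ.filter (fun i : Fin (M * D) => ¬ (i : ℕ) < Mn k 1 D * D), f i 0 +
        ∑ j : Fin (Mn k 1 D * D), f (Fin.castLE hMD j) (Fin.castLE hM1 (c j)) := by
    intro c f
    rw [← Finset.sum_filter_add_sum_filter_not (univ : Finset (Fin (M * D)))
      (fun i => (i : ℕ) < Mn k 1 D * D), add_comm]
    congr 1
    · refine Finset.sum_congr rfl fun i hi => ?_
      have := (mem_filter.mp hi).2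
      simp only [ext, dif_neg this]
    · symm
      refine Finset.sum_bij (fun j _ => Fin.castLE hMD j) ?_ ?_ ?_ ?_
      · intro j _
        rw [mem_filter]
        exact ⟨mem_univ _, j.2⟩
      · intro j _ j' _ h
        apply Fin.ext
        have := congrArg Fin.val h
        simpa using this
      · intro i hi
        exact ⟨⟨i, (mem_filter.mp hi).2⟩, mem_univ _, rfl⟩
      · intro j _
        have h1 : ((Fin.castLE hMD j : Fin (M * D)) : ℕ) < Mn k 1 D * D := j.2
        simp only [ext, dif_pos h1]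
        rfl
  let lq : Fin (M * D) → Fin (M + 1) → ℂ := fun i a => ((Real.log (q i a : ℕ) : ℝ) : ℂ)
  refine grid (K := QA) (C' := ℂ) k 1 D lam hlam
    (fun _ => u + ((Real.log m : ℝ) : ℂ) +
      ∑ i ∈ univ.filter (fun i : Fin (M * D) => ¬ (i : ℕ) < Mn k 1 D * D), lq i 0)
    (fun _ j a => lq (Fin.castLE hMD j) (Fin.castLE hM1 a)) ?_ ?_
  · intro i j
    let q' : Fin (Mn k 1 D + 1) → Nat.Primes := fun a =>
      ⟨q (Fin.castLE hMD j) (Fin.castLE hM1 a), hqp _ _⟩
    have hq' : Function.Injective q' := by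
      intro a a' h
      have h1 : q (Fin.castLE hMD j) (Fin.castLE hM1 a) = q (Fin.castLE hMD j) (Fin.castLE hM1 a') :=
        congrArg (fun x : Nat.Primes => (x : ℕ)) h
      have h2 := hqi _ h1
      apply Fin.ext
      have := congrArg Fin.val h2
      simpa using this
    have h3 := log_diff_indep (Mn k 1 D) q' hq'
    exact h3
  · intro c
    have h1 := hcon (ext (c 0))
    have h2 : ¬ NoRel D (Sum.elim lam fun _ : Fin 1 => u + ((Real.log
        ((m * ∏ i, q i (ext (c 0) i) : ℕ) : ℝ) : ℝ) : ℂ)) := h1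
    rw [noRel_iff] at h2
    push Not at h2
    obtain ⟨g, hg0, hgd, hgev⟩ := h2
    refine ⟨g, hg0, hgd, ?_⟩
    rw [← hgev]
    congr 2
    funext t
    rcases t with t | i
    · rfl
    · simp only [Sum.elim_inr]
      have hi : i = 0 := Subsingleton.elim _ _
      subst hi
      have hlog : Real.log ((m * ∏ i, q i (ext (c 0) i) : ℕ) : ℝ) =
          Real.log m + ∑ i, Real.log (q i (ext (c 0) i) : ℕ) := by
        push_cast
        rw [Real.log_mul, Real.log_prod]
        · intro j _
          exact_mod_cast (hqp j _).ne_zero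
        · exact_mod_cast (by omega : m ≠ 0)
        · rw [Finset.prod_ne_zero_iff]
          intro j _
          exact_mod_cast (hqp j _).ne_zero
      rw [hlog, Complex.ofReal_add, Complex.ofReal_sum]
      have h4 := hsplit (c 0) lq
      have h5 : ∑ i, ((Real.log (q i (ext (c 0) i) : ℕ) : ℝ) : ℂ) = ∑ i, lq i (ext (c 0) i) := rfl
      rw [h5, h4]
      ring

end MP60829e.Rate
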