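import Mathlib
import Pool.Agent.Lib.MP_60829e_nt.Rate.Tuple

/-! The quantitative theorem. -/

open Finset MvPolynomial MP60829e.Dens

namespace MP60829e.Rate

theorem noRel_zero {ι : Type} (x : ι → ℂ) : NoRel 0 x := by
  intro f hf _ hd hev
  have h1 : f.totalDegree = 0 := Nat.le_zero.mp hd
  rw [totalDegree_eq_zero_iff_eq_C] at h1
  rw [h1, eval_C] at hev
  apply hf
  rw [h1, hev, C_0]

/-- At most one integer `b` has `u + log b` algebraic. -/
theorem bad1_empty_card (D : ℕ) (lam : Fin 0 → ℂ) (u : ℂ) (S : Finset ℕ)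
    (hS : ∀ b ∈ S, 1 ≤ b ∧ b ∈ Bad1 D lam u) : S.card ≤ 1 := by
  classical
  rw [Finset.card_le_one]
  have halg : ∀ b ∈ S, IsAlgebraic ℚ (u + ((Real.log b : ℝ) : ℂ)) := by
    intro b hb
    by_contra htr
    apply (hS b hb).2
    rw [noRel_iff]
    intro f hf0 _ hev
    have htr' : Transcendental QA (u + ((Real.log b : ℝ) : ℂ)) := Transcendental.algebraicClosure htr
    have hai : AlgebraicIndependent QA (fun _ : Fin 1 => u + ((Real.log b : ℝ) : ℂ)) := by
      rw [algebraicIndependent_unique_type_iff]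
      exact htr'
    let e : Fin 0 ⊕ Fin 1 ≃ Fin 1 := Equiv.emptySum _ _
    have hai2 : AlgebraicIndependent QA (Sum.elim lam fun _ : Fin 1 => u + ((Real.log b : ℝ) : ℂ)) := by
      have h1 := hai.comp e e.injective
      convert h1 using 1
      funext t
      rcases t with a | a
      · exact a.elim0
      · rfl
    exact hf0 (hai2.eq_zero_of_aeval_eq_zero f hev)
  intro a ha b hb
  by_contra hab
  have h1 := (halg a ha).sub (halg b hb)
  have ha0 : (0 : ℝ) < a := by exact_mod_cast (hS a ha).1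
  have hb0 : (0 : ℝ) < b := by exact_mod_cast (hS b hb).1
  have h2 : u + ((Real.log a : ℝ) : ℂ) - (u + ((Real.log b : ℝ) : ℂ)) =
      ((Real.log a : ℝ) : ℂ) - ((Real.log b : ℝ) : ℂ) := by ring
  rw [h2] at h1
  refine hermite_lindemann ?_ h1 ?_
  · intro h0
    have h3 : Real.log a = Real.log b := by
      have := sub_eq_zero.mp h0
      exact_mod_cast this
    have h4 := Real.log_injOn_pos (Set.mem_Ioi.mpr ha0) (Set.mem_Ioi.mpr hb0) h3
    exact hab (by exact_mod_cast h4)
  · rw [Complex.exp_sub, ← Complex.ofReal_exp, ← Complex.ofReal_exp, Real.exp_log ha0, Real.exp_log hb0]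
    have h3 : IsAlgebraic ℚ ((a : ℕ) : ℂ) := isAlgebraic_natCast _
    have h4 : IsAlgebraic ℚ ((b : ℕ) : ℂ) := isAlgebraic_natCast _
    have h5 := h3.mul h4.inv
    rw [div_eq_mul_inv]
    simpa using h5

/-- the size of the blocks -/
noncomputable def blk (r t : ℕ) (L : ℝ) : ℕ := ⌈(t : ℝ) ^ 2 * (1 + L) ^ ((r + 2) * t ^ r)⌉₊

theorem blk_two_le (r t : ℕ) (L : ℝ) (ht : 2 ≤ t) (hL : 1 ≤ L) : 2 ≤ blk r t L := by
  have h1 : (2 : ℝ) ≤ blk r t L := by
    refine le_trans ?_ (Nat.le_ceil _)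
    have h2 : (2 : ℝ) ≤ t := by exact_mod_cast ht
    have h3 : (1 : ℝ) ≤ (1 + L) ^ ((r + 2) * t ^ r) := one_le_pow₀ (by linarith)
    nlinarith
  exact_mod_cast h1

theorem blk_density (r t : ℕ) (L : ℝ) (ht : 2 ≤ t) (hL : 1 ≤ L)
    (T : Finset (Fin r → Fin (blk r t L))) (hT : BoxFree r t (blk r t L) T) :
    (T.card : ℝ) ≤ 2 / (1 + L) ^ (r + 2) * (blk r t L : ℝ) ^ r := by
  have hs2 := blk_two_le r t L ht hL
  have hs0 : (0 : ℝ) < blk r t L := by exact_mod_cast (by omega : 0 < blk r t L)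
  have ht0 : (0 : ℝ) < t := by exact_mod_cast (by omega : 0 < t)
  have h1 := box r t (blk r t L) ht (by omega) T hT
  have h2 : (t : ℝ) ^ 2 / blk r t L ≤ 1 / (1 + L) ^ ((r + 2) * t ^ r) := by
    rw [div_le_div_iff₀ hs0 (by positivity), one_mul]
    exact Nat.le_ceil _
  have h3 : ((T.card : ℝ) / (blk r t L : ℝ) ^ r) ^ (t ^ r) ≤ (2 / (1 + L) ^ (r + 2)) ^ (t ^ r) := by
    refine h1.trans ?_
    have h5 : (2 / (1 + L) ^ (r + 2)) ^ (t ^ r) = 2 ^ (t ^ r) * (1 / (1 + L) ^ ((r + 2) * t ^ r)) := by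
      rw [div_pow, ← pow_mul, mul_one_div]
    rw [h5]
    exact mul_le_mul_of_nonneg_left h2 (by positivity)
  have h4 := le_of_pow_le_pow_left₀ (by positivity) (by positivity) h3
  rwa [div_le_iff₀ (by positivity)] at h4

theorem log_blk (r t : ℕ) (L l : ℝ) (ht : 2 ≤ t) (hr : 1 ≤ r) (hL : Real.exp 1 ≤ L)
    (hl : l = Real.log L) : Real.log (blk r t L) ≤ 4 * (r + 2) * t ^ r * l := by
  have he := Real.exp_one_gt_d9
  have hL2 : 2 ≤ L := by linarith
  have hl1 : 1 ≤ l := by
    rw [hl, ← Real.log_exp 1]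
    exact Real.log_le_log (Real.exp_pos _) hL
  have ht2 : (2 : ℝ) ≤ t := by exact_mod_cast ht
  have hr1 : (1 : ℝ) ≤ r := by exact_mod_cast hr
  set x : ℝ := (t : ℝ) ^ 2 * (1 + L) ^ ((r + 2) * t ^ r) with hx
  have hx1 : 1 ≤ x := by
    have h3 : (1 : ℝ) ≤ (1 + L) ^ ((r + 2) * t ^ r) := one_le_pow₀ (by linarith)
    nlinarith
  have h1 : (blk r t L : ℝ) ≤ 2 * x := by
    have := (Nat.ceil_lt_add_one (by linarith : (0 : ℝ) ≤ x)).le
    unfold blk
    linarith
  have hpos : (0 : ℝ) < blk r t L := by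
    have := blk_two_le r t L ht (by linarith)
    exact_mod_cast (by omega : 0 < blk r t L)
  have h2 : Real.log (blk r t L) ≤ Real.log (2 * x) := Real.log_le_log hpos h1
  have h3 : Real.log (2 * x) = Real.log 2 + (2 * Real.log t + ((r + 2) * t ^ r : ℕ) * Real.log (1 + L)) := by
    rw [Real.log_mul (by norm_num) (by linarith), hx, Real.log_mul (by positivity) (by positivity),
      Real.log_pow, Real.log_pow]
    push_cast
    ring
  have h4 : Real.log 2 ≤ 1 := by
    have := Real.log_two_lt_d9; linarith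
  have h5 : Real.log t ≤ t - 1 := Real.log_le_sub_one_of_pos (by linarith)
  have h6 : Real.log (1 + L) ≤ 2 * l := by
    rw [hl, show (2 : ℝ) * Real.log L = Real.log (L ^ 2) by rw [Real.log_pow]; norm_num]
    apply Real.log_le_log (by linarith)
    nlinarith
  have h7 : (t : ℝ) ≤ t ^ r := by
    calc (t : ℝ) = t ^ 1 := (pow_one _).symm
      _ ≤ t ^ r := pow_le_pow_right₀ (by linarith) hr
  have h8 : (0 : ℝ) ≤ ((r + 2) * t ^ r : ℕ) := Nat.cast_nonneg _
  have h9 : (((r + 2) * t ^ r : ℕ) : ℝ) = (r + 2) * t ^ r := by push_cast; ring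
  rw [h9] at h3 h8
  have h10 : ((r : ℝ) + 2) * t ^ r * Real.log (1 + L) ≤ (r + 2) * t ^ r * (2 * l) :=
    mul_le_mul_of_nonneg_left h6 h8
  have h11 : (t : ℝ) ≤ (r + 2) * t ^ r * l := by
    calc (t : ℝ) ≤ t ^ r := h7
      _ ≤ (r + 2) * t ^ r := by nlinarith [h7]
      _ ≤ (r + 2) * t ^ r * l := by nlinarith [h8]
  nlinarith [h2, h3, h4, h5, h10, h11]

theorem exp_five : Real.exp 5 ≤ 149 := by
  have h1 := Real.exp_one_lt_d9
  have h2 : Real.exp 5 = Real.exp 1 ^ 5 := by rw [← Real.exp_nat_mul]; norm_num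
  rw [h2]
  calc Real.exp 1 ^ 5 ≤ 2.7182818286 ^ 5 := pow_le_pow_left₀ (Real.exp_pos _).le h1.le 5
    _ ≤ 149 := by norm_num

/-- the count of integers with few large prime factors -/
theorem few_bound (r t B : ℕ) (ht : 2 ≤ t) (hr : 1 ≤ r) (hB : 16 ≤ B) :
    ((Sm (blk r t (Real.log B)) r B).card : ℝ) ≤
      B * ((100000 * t * Real.log (Real.log B)) ^ r / Real.log B) := by
  have hL := log_ge B hB
  have hl := loglog_ge B hB
  have he := Real.exp_one_gt_d9
  set L := Real.log B with hLdef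
  set l := Real.log L with hldef
  have hL2 : 2 ≤ L := by linarith
  have hL0 : 0 < L := by linarith
  have ht2 : (2 : ℝ) ≤ t := by exact_mod_cast ht
  have hr1 : (1 : ℝ) ≤ r := by exact_mod_cast hr
  have hB0 : (0 : ℝ) ≤ B := Nat.cast_nonneg _
  have h1 := few_primes (blk r t L) r B (blk_two_le r t L ht (by linarith)) hr hB
  have h2 := log_blk r t L l ht hr hL rfl
  rw [← hLdef, ← hldef] at h1
  have h3 : 7 * Real.exp 5 * Real.log (blk r t L) * (7 * l) ^ (r - 1) ≤ (100000 * t * l) ^ r := by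
    have e1 : (7 : ℝ) * l * (7 * l) ^ (r - 1) = (7 * l) ^ r := by
      rw [← pow_succ']; congr 1; omega
    have e2 : ((r : ℝ) + 2) ≤ 3 ^ r := by
      have : ∀ r : ℕ, 1 ≤ r → r + 2 ≤ 3 ^ r := by
        intro r hr
        induction r, hr using Nat.le_induction with
        | base => norm_num
        | succ r hr ih => rw [pow_succ]; omega
      exact_mod_cast this r hr
    have e3 : (1 : ℝ) ≤ 600 ^ r := one_le_pow₀ (by norm_num)
    have e4 : (600 : ℝ) ≤ 600 ^ r := by
      calc (600 : ℝ) = 600 ^ 1 := (pow_one _).symm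
        _ ≤ 600 ^ r := pow_le_pow_right₀ (by norm_num) hr
    calc 7 * Real.exp 5 * Real.log (blk r t L) * (7 * l) ^ (r - 1)
        ≤ 7 * 149 * (4 * (r + 2) * t ^ r * l) * (7 * l) ^ (r - 1) := by
          have hlogb : 0 ≤ Real.log (blk r t L) := Real.log_natCast_nonneg _
          have := exp_five
          gcongr
      _ = 149 * 4 * ((r + 2) * t ^ r) * (7 * l * (7 * l) ^ (r - 1)) := by ring
      _ = 596 * ((r + 2) * t ^ r) * (7 * l) ^ r := by rw [e1]; norm_num
      _ ≤ 600 ^ r * (3 ^ r * t ^ r) * (7 * l) ^ r := by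
          have : (596 : ℝ) ≤ 600 ^ r := by linarith
          gcongr
      _ = (12600 * t * l) ^ r := by
          rw [← mul_pow, ← mul_pow, ← mul_pow]; congr 1; ring
      _ ≤ (100000 * t * l) ^ r := by
          apply pow_le_pow_left₀ (by positivity)
          have : 0 ≤ (t : ℝ) * l := by positivity
          nlinarith
  have h4 : ((Sm (blk r t L) r B).card : ℝ) * L ≤ (100000 * t * l) ^ r * B :=
    h1.trans (mul_le_mul_of_nonneg_right h3 hB0)
  rw [mul_div_assoc', le_div_iff₀ hL0]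
  linarith

/-- The bound for the bad tuples. -/
theorem bad_bound (n k D : ℕ) (lam : Fin k → ℂ) (hlam : NoRel D lam) (u : Fin n → ℂ) (B : ℕ)
    (hB : 16 ≤ B) :
    ((BadT D lam u B).card : ℝ) ≤
      (10 ^ 6 * (n + k + D).choose D * Real.log (Real.log B)) ^ (3 * (n + k + D).choose D * D) /
        Real.log B ^ (if k = 0 then 2 else 1) * B ^ n := by
  classical
  have hL := log_ge B hB
  have hl := loglog_ge B hB
  have he := Real.exp_one_gt_d9
  set L := Real.log B with hLdef
  set l := Real.log L with hldef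
  have hL2 : 2 ≤ L := by linarith
  have hL0 : 0 < L := by linarith
  have hB0 : (0 : ℝ) < B := by exact_mod_cast (by omega : 0 < B)
  set M := (n + k + D).choose D with hM
  have hRHS : 0 ≤ (10 ^ 6 * (M : ℝ) * l) ^ (3 * M * D) / L ^ (if k = 0 then 2 else 1) * (B : ℝ) ^ n := by
    positivity
  -- degenerate cases
  rcases Nat.eq_zero_or_pos D with hD | hD
  · have h1 : BadT D lam u B = ∅ := by
      rw [Finset.eq_empty_iff_forall_notMem]
      intro b hb
      rw [mem_BadT] at hb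
      apply hb.2
      rw [hD]
      exact noRel_zero _
    rw [h1]
    simpa using hRHS
  rcases Nat.eq_zero_or_pos n with hn | hn
  · have h1 : BadT D lam u B = ∅ := by
      rw [Finset.eq_empty_iff_forall_notMem]
      intro b hb
      rw [mem_BadT] at hb
      apply hb.2
      subst hn
      have h2 := NoRel.comp_inj hlam (Sum.elim id (fun i : Fin 0 => i.elim0) : Fin k ⊕ Fin 0 → Fin k) (by
        rintro (a | a) (a' | a') h
        · exact congrArg Sum.inl h
        · exact a'.elim0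
        · exact a.elim0
        · exact a.elim0)
      convert h2 using 1
      funext t
      rcases t with a | a
      · rfl
      · exact a.elim0
    rw [h1]
    simpa using hRHS
  -- main case
  have hMn : n + 1 ≤ M := by
    have h1 : (n + 1 : ℕ) ≤ (n + 1).choose 1 := by simp
    calc n + 1 ≤ (n + k + 1).choose 1 := by simp
      _ ≤ (n + k + D).choose D := by
        have h2 : (n + k + 1).choose 1 = (n + k + 1).choose (n + k) := by
          rw [← Nat.choose_symm_of_eq_add]; omega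
        have h3 : (n + k + D).choose D = (n + k + D).choose (n + k) := by
          rw [← Nat.choose_symm_of_eq_add]; omega
        rw [h2, h3]
        exact Nat.choose_le_choose _ (by omega)
  have hM2 : 2 ≤ M := by omega
  set r := M * D with hr
  have hr1 : 1 ≤ r := Nat.mul_pos (by omega) hD
  have hMr : M ≤ r := Nat.le_mul_of_pos_right _ hD
  set t := M + 1 with ht
  have ht2 : 2 ≤ t := by omega
  set s := blk r t L with hs
  have hs2 : 2 ≤ s := blk_two_le r t L ht2 (by linarith)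
  set A : ℝ := 200000 * M * l with hA
  have hM2' : (2 : ℝ) ≤ M := by exact_mod_cast hM2
  have hA1 : 400000 ≤ A := by
    rw [hA]; nlinarith
  set τ : ℝ := 2 / (1 + L) ^ 2 with hτ
  set ν : ℝ := A ^ r / L with hν
  have hfew : ((Sm s r B).card : ℝ) ≤ B * ν := by
    refine (few_bound r t B ht2 hr1 hB).trans ?_
    rw [← hLdef, ← hldef, hν]
    refine mul_le_mul_of_nonneg_left ?_ hB0.le
    refine div_le_div_of_nonneg_right ?_ hL0.le
    apply pow_le_pow_left₀ (by positivity)
    rw [hA, ht]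
    push_cast
    have : (M : ℝ) + 1 ≤ 2 * M := by linarith
    have hl0 : 0 ≤ l := by linarith
    nlinarith [mul_le_mul_of_nonneg_right this hl0]
  have htyp : ∀ k' ≤ k + (n - 1), ∀ lam' : Fin k' → ℂ, NoRel D lam' → ∀ u', ∀ S : Finset ℕ,
      (∀ b ∈ S, 1 ≤ b ∧ b ≤ B ∧ b ∈ Bad1 D lam' u' ∧ r ≤ om s b) → (S.card : ℝ) ≤ B * τ := by
    intro k' hk' lam' hlam' u' S hS
    have hch : (k' + 1 + D).choose D ≤ M := by
      have h2 : (k' + 1 + D).choose D = (k' + 1 + D).choose (k' + 1) := by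
        rw [← Nat.choose_symm_of_eq_add]; omega
      rw [hM]
      exact Nat.choose_le_choose _ (by omega)
    have h1 := typical r t s B (by omega) (Bad1 D lam' u') (gridFree_bad k' D M hch lam' hlam' u')
      (2 / (1 + L) ^ (r + 2)) (by positivity) (fun T hT => blk_density r t L ht2 (by linarith) T hT)
    have h2 : (S.card : ℝ) ≤ (((Icc 1 B).filter (fun b => b ∈ Bad1 D lam' u' ∧ r ≤ om s b)).card : ℝ) := by
      have : S ⊆ (Icc 1 B).filter (fun b => b ∈ Bad1 D lam' u' ∧ r ≤ om s b) := by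
        intro b hb
        obtain ⟨h3, h4, h5, h6⟩ := hS b hb
        rw [mem_filter, mem_Icc]
        exact ⟨⟨h3, h4⟩, h5, h6⟩
      exact_mod_cast card_le_card this
    refine (h2.trans h1).trans (le_of_eq ?_)
    rw [← hLdef, hτ, pow_add]
    have : (1 + L) ≠ 0 := by positivity
    field_simp
  -- the constant G
  set ex : ℕ := if k = 0 then 2 else 1 with hex
  set G : ℝ := (A ^ (2 * r) + 4) / L ^ ex with hG
  have hG0 : 0 ≤ G := by positivity
  have hτL : τ ≤ 2 / L ^ 2 := by
    rw [hτ]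
    apply div_le_div_of_nonneg_left (by norm_num) (by positivity)
    apply pow_le_pow_left₀ hL0.le
    linarith
  have hLex : L ^ ex ≤ L ^ 2 := by
    apply pow_le_pow_right₀ (by linarith)
    rw [hex]; split_ifs <;> omega
  have hex1 : L ≤ L ^ 2 := by nlinarith
  have hH4 : 2 * τ + ν ^ 2 ≤ G := by
    have h1 : ν ^ 2 = A ^ (2 * r) / L ^ 2 := by
      rw [hν, div_pow, ← pow_mul, mul_comm r 2]
    have h2 : 2 * τ + ν ^ 2 ≤ (A ^ (2 * r) + 4) / L ^ 2 := by
      rw [h1, add_div]
      have : 2 * τ ≤ 4 / L ^ 2 := by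
        calc 2 * τ ≤ 2 * (2 / L ^ 2) := by linarith
          _ = 4 / L ^ 2 := by ring
      linarith
    refine h2.trans ?_
    rw [hG]
    exact div_le_div_of_nonneg_left (by positivity) (by positivity) hLex
  have hH3 : ∀ u', ∀ S : Finset ℕ, (∀ b ∈ S, 1 ≤ b ∧ b ≤ B ∧ b ∈ Bad1 D lam u') →
      (S.card : ℝ) ≤ B * G := by
    intro u' S hS
    by_cases hk : k = 0
    · subst hk
      have h1 := bad1_empty_card D lam u' S (fun b hb => ⟨(hS b hb).1, (hS b hb).2.2⟩)
      have h2 : (S.card : ℝ) ≤ 1 := by exact_mod_cast h1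
      refine h2.trans ?_
      have h3 : G = (A ^ (2 * r) + 4) / L ^ 2 := by
        rw [hG, hex]; simp
      have h4 : L ^ 2 ≤ 4 * B := by
        have h5 : L ≤ 2 * (Real.sqrt B) := by
          have h6 : L = 2 * Real.log (Real.sqrt B) := by
            rw [Real.log_sqrt hB0.le]; ring
          have h7 : Real.log (Real.sqrt B) ≤ Real.sqrt B - 1 :=
            Real.log_le_sub_one_of_pos (Real.sqrt_pos.mpr hB0)
          linarith
        calc L ^ 2 ≤ (2 * Real.sqrt B) ^ 2 := pow_le_pow_left₀ hL0.le h5 2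
          _ = 4 * B := by rw [mul_pow, Real.sq_sqrt hB0.le]; norm_num
      rw [h3, mul_div_assoc', le_div_iff₀ (by positivity), one_mul]
      have h8 : 0 ≤ (B : ℝ) * A ^ (2 * r) := by positivity
      nlinarith
    · have h1 : ex = 1 := by rw [hex, if_neg hk]
      have h2 : (S.card : ℝ) ≤ ((S.filter (fun b => r ≤ om s b)).card : ℝ) + ((Sm s r B).card : ℝ) := by
        have h3 : S ⊆ (S.filter (fun b => r ≤ om s b)) ∪ (Sm s r B) := by
          intro b hb
          rw [mem_union, mem_filter, Sm, mem_filter, mem_Icc]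
          by_cases h4 : r ≤ om s b
          · exact Or.inl ⟨hb, h4⟩
          · exact Or.inr ⟨⟨(hS b hb).1, (hS b hb).2.1⟩, by omega⟩
        have h4 := (card_le_card h3).trans (card_union_le _ _)
        exact_mod_cast h4
      have h3 := htyp k (by omega) lam hlam u' (S.filter (fun b => r ≤ om s b)) (fun b hb => by
        rw [mem_filter] at hb
        exact ⟨(hS b hb.1).1, (hS b hb.1).2.1, (hS b hb.1).2.2, hb.2⟩)
      refine h2.trans ((add_le_add h3 hfew).trans ?_)
      rw [← mul_add]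
      refine mul_le_mul_of_nonneg_left ?_ hB0.le
      rw [hG, h1, pow_one, add_div, hν]
      have h4 : τ ≤ 4 / L := by
        refine hτL.trans ?_
        rw [div_le_div_iff₀ (by positivity) hL0]
        nlinarith
      have h5 : A ^ r ≤ A ^ (2 * r) := pow_le_pow_right₀ (by linarith) (by omega)
      have h6 : A ^ r / L ≤ A ^ (2 * r) / L := div_le_div_of_nonneg_right h5 hL0.le
      linarith
  have hmain := tuple_bound k D r s B (n - 1) lam hlam (by omega) τ ν G (by positivity) hG0 htyp hfew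
    hH3 hH4 n (by omega) u
  refine hmain.trans ?_
  rw [mul_comm ((B : ℝ) ^ n)]
  refine mul_le_mul_of_nonneg_right ?_ (by positivity)
  rw [hG, mul_div_assoc']
  refine div_le_div_of_nonneg_right ?_ (by positivity)
  -- (n+1)! (A^(2r) + 4) ≤ (10^6 M l)^(3r)
  have hfac : (((n + 1).factorial : ℕ) : ℝ) ≤ (M : ℝ) ^ r := by
    have h1 : (n + 1).factorial ≤ (n + 1) ^ (n + 1) := Nat.factorial_le_pow _
    have h2 : (n + 1) ^ (n + 1) ≤ M ^ (n + 1) := Nat.pow_le_pow_left hMn _
    have h3 : M ^ (n + 1) ≤ M ^ r := Nat.pow_le_pow_right (by omega) (by omega)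
    exact_mod_cast (h1.trans h2).trans h3
  have hA2 : (4 : ℝ) ≤ A ^ (2 * r) := by
    calc (4 : ℝ) ≤ A ^ 1 := by rw [pow_one]; linarith
      _ ≤ A ^ (2 * r) := pow_le_pow_right₀ (by linarith) (by omega)
  have h2r : (2 : ℝ) ≤ 2 ^ r := by
    calc (2 : ℝ) = 2 ^ 1 := (pow_one _).symm
      _ ≤ 2 ^ r := pow_le_pow_right₀ (by norm_num) hr1
  have hexp : 3 * M * D = 3 * r := by rw [hr]; ring
  rw [hexp]
  calc (((n + 1).factorial : ℕ) : ℝ) * (A ^ (2 * r) + 4)
      ≤ M ^ r * (2 ^ r * A ^ (2 * r)) := by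
        apply mul_le_mul hfac _ (by positivity) (by positivity)
        have : 0 ≤ A ^ (2 * r) := by positivity
        nlinarith
    _ = (M * 2 * A ^ 2) ^ r := by
        rw [pow_mul A 2 r, ← mul_pow, ← mul_pow, mul_assoc]
    _ ≤ ((10 ^ 6 * M * l) ^ 3) ^ r := by
        apply pow_le_pow_left₀ (by positivity)
        have h1 : A ≤ 10 ^ 6 * M * l := by
          rw [hA]
          have : 0 ≤ (M : ℝ) * l := by positivity
          nlinarith
        have h2 : (M : ℝ) * 2 ≤ 10 ^ 6 * M * l := by nlinarith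
        calc (M : ℝ) * 2 * A ^ 2 ≤ (10 ^ 6 * M * l) * (10 ^ 6 * M * l) ^ 2 := by
              apply mul_le_mul h2 _ (by positivity) (by positivity)
              exact pow_le_pow_left₀ (by linarith) h1 2
          _ = (10 ^ 6 * M * l) ^ 3 := by ring
    _ = (10 ^ 6 * M * l) ^ (3 * r) := by rw [← pow_mul]

/-- The final statement, with shears. -/
theorem rate (n k D : ℕ) (lam : Fin k → ℂ) (hlam : NoRel D lam) (u : Fin n → ℂ) (B : ℕ)
    (hB : 16 ≤ B) :
    ({b : Fin n → ℕ | (∀ i, 1 ≤ b i ∧ b i ≤ B) ∧ ∃ v : Fin n → ℂ,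
      (∀ i, v i ∈ Submodule.span QA (insert 1 (Set.range lam))) ∧
      ¬ NoRel D (Sum.elim lam fun i => u i + ((Real.log (b i) : ℝ) : ℂ) + v i)}.ncard : ℝ) ≤
      (10 ^ 6 * (n + k + D).choose D * Real.log (Real.log B)) ^ (3 * (n + k + D).choose D * D) /
        Real.log B ^ (if k = 0 then 2 else 1) * B ^ n := by
  classical
  refine le_trans ?_ (bad_bound n k D lam hlam u B hB)
  rw [← Set.ncard_coe_finset]
  have h : {b : Fin n → ℕ | (∀ i, 1 ≤ b i ∧ b i ≤ B) ∧ ∃ v : Fin n → ℂ,
      (∀ i, v i ∈ Submodule.span QA (insert 1 (Set.range lam))) ∧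
      ¬ NoRel D (Sum.elim lam fun i => u i + ((Real.log (b i) : ℝ) : ℂ) + v i)} ⊆
      (BadT D lam u B : Set (Fin n → ℕ)) := by
    rintro b ⟨hb, v, hv, hrel⟩
    rw [mem_coe, mem_BadT]
    exact ⟨hb, fun hno => hrel (hno.shear hv)⟩
  exact_mod_cast Set.ncard_le_ncard h (Finset.finite_toSet _)

end MP60829e.Rate
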